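import Pool.Agent.TH198.AT.Stmts2

/-! Piece `CORES` of the proof of the de Almeida-Thouless line (written by helper429). -/

set_option autoImplicit false

open MeasureTheory ProbabilityTheory Set Filter Topology

namespace Pool.TH198.AT

namespace CO

theorem sech_pos (x : ℝ) : 0 < sech x := inv_pos.2 (Real.cosh_pos x)

theorem sech_le_one (x : ℝ) : sech x ≤ 1 := inv_le_one_of_one_le₀ (Real.one_le_cosh x)

theorem sech_lt_one {x : ℝ} (hx : x ≠ 0) : sech x < 1 :=
  inv_lt_one_of_one_lt₀ (Real.one_lt_cosh.2 hx)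

theorem sech_cont : Continuous sech :=
  Real.continuous_cosh.inv₀ fun x => (Real.cosh_pos x).ne'

theorem tanh_cont : Continuous Real.tanh := by
  have h : Real.tanh = fun y => Real.sinh y / Real.cosh y := by
    funext y
    exact Real.tanh_eq_sinh_div_cosh y
  rw [h]
  exact Real.continuous_sinh.div Real.continuous_cosh fun x => (Real.cosh_pos x).ne'

theorem sech_sq (x : ℝ) : sech x ^ 2 = 1 - Real.tanh x ^ 2 := by
  have h := Real.cosh_sq_sub_sinh_sq x
  have hc := (Real.cosh_pos x).ne'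
  rw [sech, Real.tanh_eq_sinh_div_cosh]
  field_simp
  linarith

theorem tanh_sq_le (x : ℝ) : Real.tanh x ^ 2 ≤ 1 := (Real.tanh_sq_lt_one x).le

/-- bounded continuous functions are integrable -/
theorem intg {F : ℝ → ℝ} {C : ℝ} (hF : Continuous F) (hC : ∀ z, |F z| ≤ C) :
    Integrable F (gaussianReal 0 1) :=
  Integrable.of_bound hF.aestronglyMeasurable C (Eventually.of_forall hC)

theorem E1_const (c : ℝ) : E1 (fun _ => c) = c := by simp [E1]

theorem E1_add {F G : ℝ → ℝ} (hF : Integrable F (gaussianReal 0 1))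
    (hG : Integrable G (gaussianReal 0 1)) : E1 (fun z => F z + G z) = E1 F + E1 G :=
  integral_add hF hG

theorem E1_sub {F G : ℝ → ℝ} (hF : Integrable F (gaussianReal 0 1))
    (hG : Integrable G (gaussianReal 0 1)) : E1 (fun z => F z - G z) = E1 F - E1 G :=
  integral_sub hF hG

theorem E1_mul (c : ℝ) (F : ℝ → ℝ) : E1 (fun z => c * F z) = c * E1 F :=
  integral_const_mul c F

theorem E1_bd {F : ℝ → ℝ} {C : ℝ} (hC : ∀ z, |F z| ≤ C) : |E1 F| ≤ C := by
  have h := norm_integral_le_of_norm_le_const (μ := gaussianReal 0 1) (f := F) (C := C)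
    (Eventually.of_forall hC)
  simpa [E1] using h

theorem E1_nonneg {F : ℝ → ℝ} (hF : ∀ z, 0 ≤ F z) : 0 ≤ E1 F := integral_nonneg hF

theorem E1_mono {F G : ℝ → ℝ} (hF : Integrable F (gaussianReal 0 1))
    (hG : Integrable G (gaussianReal 0 1)) (h : ∀ z, F z ≤ G z) : E1 F ≤ E1 G :=
  integral_mono hF hG h

/-- strict positivity -/
theorem E1_pos {F : ℝ → ℝ} {C : ℝ} (hF : Continuous F) (hC : ∀ z, |F z| ≤ C) (h0 : ∀ z, 0 ≤ F z)
    (h1 : ∃ z, 0 < F z) : 0 < E1 F := by
  unfold E1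
  rw [integral_pos_iff_support_of_nonneg h0 (intg hF hC)]
  have ho : IsOpen (Function.support F) := hF.isOpen_support
  obtain ⟨z, hz⟩ := h1
  have hv : 0 < (volume : Measure ℝ) (Function.support F) := ho.measure_pos _ ⟨z, hz.ne'⟩
  rw [pos_iff_ne_zero]
  intro hc
  exact hv.ne' (gaussianReal_absolutelyContinuous' 0 one_ne_zero hc)

/-- the heat extension of a bounded continuous function -/
theorem cont_E {g : ℝ → ℝ} {C : ℝ} (hg : Continuous g) (hC : ∀ x, |g x| ≤ C) (x σ τ : ℝ) :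
    Continuous fun z => E1 (fun y => g (x + σ * z + τ * y)) := by
  refine continuous_of_dominated (bound := fun _ => C)
    (fun z => (hg.comp (by fun_prop : Continuous fun y => x + σ * z + τ * y)).aestronglyMeasurable)
    (fun z => Eventually.of_forall fun y => hC _) (integrable_const C)
    (Eventually.of_forall fun y => hg.comp (by fun_prop : Continuous fun z => x + σ * z + τ * y))

theorem sk_cont (k : ℕ) : Continuous fun x => sech x ^ k := sech_cont.pow k

theorem sk_nonneg (k : ℕ) (x : ℝ) : 0 ≤ sech x ^ k := (pow_pos (sech_pos x) k).le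

theorem sk_le (k : ℕ) (x : ℝ) : sech x ^ k ≤ 1 := pow_le_one₀ (sech_pos x).le (sech_le_one x)

theorem sk_bd (k : ℕ) (x : ℝ) : |sech x ^ k| ≤ 1 := by
  rw [abs_of_nonneg (sk_nonneg k x)]
  exact sk_le k x

/-- the function under the outer expectation in `V` -/
noncomputable def inn (k : ℕ) (s h v z : ℝ) : ℝ := E1 (fun y => sech (h + √s * z + √v * y) ^ k)

theorem inn_cont (k : ℕ) (s h v : ℝ) : Continuous (inn k s h v) :=
  cont_E (sk_cont k) (sk_bd k) h (√s) (√v)

theorem inn_bd (k : ℕ) (s h v z : ℝ) : |inn k s h v z| ≤ 1 := E1_bd fun _ => sk_bd k _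

theorem inn_nonneg (k : ℕ) (s h v z : ℝ) : 0 ≤ inn k s h v z := E1_nonneg fun _ => sk_nonneg k _

theorem aff_cont (s h : ℝ) : Continuous fun z : ℝ => h + √s * z := by fun_prop

theorem out_cont (k : ℕ) (s h v : ℝ) :
    Continuous fun z => sech (h + √s * z) * inn k s h v z :=
  (sech_cont.comp (aff_cont s h)).mul (inn_cont k s h v)

theorem out_bd (k : ℕ) (s h v z : ℝ) : |sech (h + √s * z) * inn k s h v z| ≤ 1 := by
  rw [abs_mul, abs_of_pos (sech_pos _)]
  exact mul_le_one₀ (sech_le_one _) (abs_nonneg _) (inn_bd k s h v z)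

theorem V_eq (k : ℕ) (s h v : ℝ) :
    V k s h v = Real.exp (-v / 2) * E1 (fun z => sech (h + √s * z) * inn k s h v z) := rfl

theorem V_nonneg (k : ℕ) (s h v : ℝ) : 0 ≤ V k s h v := by
  rw [V_eq]
  exact mul_nonneg (Real.exp_pos _).le
    (E1_nonneg fun z => mul_nonneg (sech_pos _).le (inn_nonneg _ _ _ _ _))

theorem V_zero (k : ℕ) (s h : ℝ) : V k s h 0 = E1 (fun z => sech (h + √s * z) ^ (k + 1)) := by
  unfold V
  simp only [neg_zero, zero_div, Real.exp_zero, one_mul, Real.sqrt_zero, zero_mul, add_zero,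
    E1_const]
  congr 1
  funext z
  rw [pow_succ, mul_comm]

theorem V_lt_one (k : ℕ) (s h v : ℝ) (hv : 0 < v) : V k s h v < 1 := by
  rw [V_eq]
  have h1 : E1 (fun z => sech (h + √s * z) * inn k s h v z) ≤ 1 :=
    (le_abs_self _).trans (E1_bd fun z => out_bd k s h v z)
  have h2 : Real.exp (-v / 2) < 1 := by
    rw [← Real.exp_zero]
    exact Real.exp_lt_exp.2 (by linarith)
  calc Real.exp (-v / 2) * E1 (fun z => sech (h + √s * z) * inn k s h v z) ≤
        Real.exp (-v / 2) * 1 := mul_le_mul_of_nonneg_left h1 (Real.exp_pos _).le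
    _ < 1 := by rwa [mul_one]

theorem V3_lt_V1 (s h v : ℝ) (hv : 0 < v) : V 3 s h v < V 1 s h v := by
  rw [V_eq, V_eq]
  apply mul_lt_mul_of_pos_left _ (Real.exp_pos _)
  rw [← sub_pos, ← E1_sub (intg (out_cont 1 s h v) (out_bd 1 s h v))
    (intg (out_cont 3 s h v) (out_bd 3 s h v))]
  have key : ∀ z : ℝ, 0 < sech (h + √s * z) * inn 1 s h v z - sech (h + √s * z) * inn 3 s h v z := by
    intro z
    rw [← mul_sub]
    apply mul_pos (sech_pos _)
    unfold inn
    have hc : ∀ k : ℕ, Continuous fun y => sech (h + √s * z + √v * y) ^ k := fun k =>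
      (sk_cont k).comp (by fun_prop : Continuous fun y => h + √s * z + √v * y)
    rw [← E1_sub (intg (hc 1) fun _ => sk_bd 1 _) (intg (hc 3) fun _ => sk_bd 3 _)]
    refine E1_pos (C := 2) ((hc 1).sub (hc 3)) (fun y => ?_) (fun y => ?_) ?_
    · refine (abs_sub _ _).trans ?_
      linarith [sk_bd 1 (h + √s * z + √v * y), sk_bd 3 (h + √s * z + √v * y)]
    · have h1 := sech_pos (h + √s * z + √v * y)
      have h2 := sech_le_one (h + √s * z + √v * y)
      rw [sub_nonneg]
      exact pow_le_pow_of_le_one h1.le h2 (by norm_num)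
    · have hsv : 0 < √v := Real.sqrt_pos.2 hv
      refine ⟨(1 - (h + √s * z)) / √v, ?_⟩
      have he : h + √s * z + √v * ((1 - (h + √s * z)) / √v) = 1 := by
        field_simp
        ring
      rw [he, sub_pos]
      exact pow_lt_pow_right_of_lt_one₀ (sech_pos 1) (sech_lt_one one_ne_zero) (by norm_num)
  refine E1_pos (C := 2) ((out_cont 1 s h v).sub (out_cont 3 s h v)) (fun z => ?_)
    (fun z => (key z).le) ⟨0, key 0⟩
  refine (abs_sub _ _).trans ?_
  linarith [out_bd 1 s h v z, out_bd 3 s h v z]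

/-- mean value theorem on `[0, v]` -/
theorem mvt {f f' : ℝ → ℝ} (hc : ContinuousOn f (Ici 0)) (hd : ∀ v : ℝ, 0 < v → HasDerivAt f (f' v) v)
    {v : ℝ} (hv : 0 < v) : ∃ c : ℝ, 0 < c ∧ c < v ∧ f v - f 0 = f' c * v := by
  obtain ⟨c, hc1, hc2⟩ := exists_hasDerivAt_eq_slope f f' hv
    (hc.mono fun x hx => hx.1) (fun x hx => hd x hx.1)
  refine ⟨c, hc1.1, hc1.2, ?_⟩
  rw [hc2, sub_zero, div_mul_cancel₀ _ hv.ne']

/-- `V_3 < 1 / a` implies the upper bound for `phi` -/
theorem V1_gt (hVD : St_VD) {s h M v : ℝ} (hs : 0 ≤ s) (hM : ∀ c : ℝ, 0 < c → V 3 s h c < M)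
    (hv : 0 < v) : V 1 s h 0 - v * M < V 1 s h v := by
  obtain ⟨h1, -, h3, -⟩ := hVD s h hs
  obtain ⟨c, hc0, -, hc⟩ := mvt (f' := fun v => -V 3 s h v) h3 h1 hv
  have h4 := hM c hc0
  have h5 : V 3 s h c * v < M * v := mul_lt_mul_of_pos_right h4 hv
  nlinarith

theorem V3_bound (hCL : St_CLAIMS) (hVD : St_VD) (hC2 : St_CASE2) {β h q : ℝ} (hβ : 0 < β)
    (hh : 0 ≤ h) (hq : 0 ≤ q)
    (hq1 : q = E1 (fun z => Real.tanh (h + √(2 * β ^ 2 * q) * z) ^ 2))
    (hB : 2 * β ^ 2 * E1 (fun z => sech (h + √(2 * β ^ 2 * q) * z) ^ 4) ≤ 1) :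
    ∀ c : ℝ, 0 < c → V 3 (2 * β ^ 2 * q) h c < 1 / (2 * β ^ 2) := by
  intro c hc
  have ha : 0 < 2 * β ^ 2 := by positivity
  set s : ℝ := 2 * β ^ 2 * q with hs
  have hs0 : 0 ≤ s := mul_nonneg ha.le hq
  have hB' : E1 (fun z => sech (h + √s * z) ^ 4) ≤ 1 / (2 * β ^ 2) := by
    rw [le_div_iff₀ ha, mul_comm]
    exact hB
  obtain ⟨h1, h2, h3, h4⟩ := hVD s h hs0
  rcases hs0.eq_or_lt with hs1 | hs1
  · -- the case `q = 0`
    have hq0 : q = 0 := by
      rcases mul_eq_zero.1 (hs ▸ hs1.symm) with h5 | h5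
      · exact absurd h5 ha.ne'
      · exact h5
    have hh0 : h = 0 := by
      rw [← hs1] at hq1
      simp only [Real.sqrt_zero, zero_mul, add_zero, E1_const] at hq1
      rw [hq0] at hq1
      have h5 : Real.tanh h = 0 := by
        have := hq1.symm
        exact pow_eq_zero_iff (two_ne_zero) |>.1 this
      rw [Real.tanh_eq_sinh_div_cosh, div_eq_zero_iff] at h5
      rcases h5 with h5 | h5
      · exact Real.sinh_eq_zero.1 h5
      · exact absurd h5 (Real.cosh_pos h).ne'
    have h5 : 1 ≤ 1 / (2 * β ^ 2) := by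
      rw [← hs1] at hB'
      simp only [hh0, Real.sqrt_zero, zero_mul, add_zero, E1_const, sech, Real.cosh_zero, inv_one,
        one_pow] at hB'
      exact hB'
    exact (V_lt_one 3 s h c hc).trans_le h5
  · rcases le_total (h ^ 2) (2 * s ^ 2 + s) with h5 | h5
    · -- case I
      obtain ⟨c', hc'0, -, hc'⟩ := mvt (f' := fun v => -(Real.exp (-v / 2) *
        E1 (fun z => sech (h + √s * z) * E1 (fun y => kk (h + √s * z + √v * y))))) h4 h2 hc
      have h6 := hCL s h c' hs1 hh h5 hc'0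
      have h7 : V 3 s h 0 ≤ 1 / (2 * β ^ 2) := by
        rw [V_zero]
        exact hB'
      have h8 : 0 < Real.exp (-c' / 2) *
          E1 (fun z => sech (h + √s * z) * E1 (fun y => kk (h + √s * z + √c' * y))) :=
        mul_pos (Real.exp_pos _) h6
      nlinarith [mul_pos h8 hc]
    · -- case II
      have h6 := hC2 s h hs1 hh h5
      have h7 : E1 (fun z => sech (h + √s * z) ^ 2) ≤ 1 / (2 * β ^ 2) := by
        rw [← hq1] at h6
        rw [le_div_iff₀ ha]
        have hqpos : 0 < q := by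
          rcases hq.eq_or_lt with h8 | h8
          · rw [hs, ← h8, mul_zero] at hs1
            exact absurd hs1 (lt_irrefl 0)
          · exact h8
        have h8 : (2 * β ^ 2 * E1 (fun z => sech (h + √s * z) ^ 2)) * q ≤ 1 * q := by
          calc (2 * β ^ 2 * E1 (fun z => sech (h + √s * z) ^ 2)) * q =
                s * E1 (fun z => sech (h + √s * z) ^ 2) := by rw [hs]; ring
            _ ≤ q := h6
            _ = 1 * q := (one_mul q).symm
        have h9 := le_of_mul_le_mul_right h8 hqpos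
        linarith
      obtain ⟨c', hc'0, -, hc'⟩ := mvt (f' := fun v => -V 3 s h v) h3 h1 hc
      have h8 := V_nonneg 3 s h c'
      have h9 : V 1 s h c ≤ V 1 s h 0 := by
        nlinarith [mul_nonneg h8 hc.le]
      rw [V_zero] at h9
      exact (V3_lt_V1 s h c hc).trans_le (h9.trans h7)

theorem arg_eq {β q : ℝ} (hβ : 0 < β) (z h : ℝ) :
    β * z * √(2 * q) + h = h + √(2 * β ^ 2 * q) * z := by
  have h1 : √(2 * β ^ 2 * q) = β * √(2 * q) := by
    rw [show 2 * β ^ 2 * q = β ^ 2 * (2 * q) by ring, Real.sqrt_mul (sq_nonneg β),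
      Real.sqrt_sq hβ.le]
  rw [h1]
  ring

theorem V1_zero {β h q : ℝ}
    (hq1 : q = E1 (fun z => Real.tanh (h + √(2 * β ^ 2 * q) * z) ^ 2)) :
    V 1 (2 * β ^ 2 * q) h 0 = 1 - q := by
  rw [V_zero]
  simp only [Nat.reduceAdd, sech_sq]
  have hc : Continuous fun z : ℝ => Real.tanh (h + √(2 * β ^ 2 * q) * z) ^ 2 :=
    (tanh_cont.comp (aff_cont _ h)).pow 2
  rw [E1_sub (integrable_const 1) (intg (C := 1) hc (fun z => by
    rw [abs_of_nonneg (sq_nonneg _)]; exact tanh_sq_le _)), E1_const, ← hq1]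

/-- the strict form implies the form with equality allowed -/
theorem core_of_cores (hC : St_CORES) : St_CORE := by
  intro β h q hβ hh hD
  obtain ⟨h1, h2⟩ := hC β h q hβ hh hD
  refine ⟨fun t ht0 htq => (h1 t ht0 htq).le, fun t hqt ht1 => ?_⟩
  rcases hqt.eq_or_lt with rfl | hlt
  · obtain ⟨-, hq1, -⟩ := hD
    simp only [arg_eq hβ] at hq1
    unfold phi
    rw [if_neg (lt_irrefl _), sub_self, mul_zero, V1_zero hq1]
    linarith
  · exact (h2 t hlt ht1).le

end CO

open CO

theorem t_CORES (hPO : St_POINS) (hCL : St_CLAIMS) (hSE : St_SEMI) (hVD : St_VD)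
    (hC2 : St_CASE2) : St_CORES := by
  intro β h q hβ hh ⟨hq, hq1, hB⟩
  simp only [arg_eq hβ] at hq1 hB
  have ha : 0 < 2 * β ^ 2 := by positivity
  have hB1 : 2 * β ^ 2 * E1 (fun z => sech (h + √(2 * β ^ 2 * q) * z) ^ 4) ≤ 1 := by linarith
  constructor
  · intro t ht0 htq
    unfold phi
    rw [if_pos htq]
    set u : ℝ := 2 * β ^ 2 * t with hu
    set w : ℝ := 2 * β ^ 2 * (q - t) with hw
    have hu0 : 0 ≤ u := mul_nonneg ha.le ht0
    have hw0 : 0 < w := mul_pos ha (sub_pos.2 htq)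
    have huw : u + w = 2 * β ^ 2 * q := by rw [hu, hw]; ring
    have hsw : 0 < √w := Real.sqrt_pos.2 hw0
    -- the two averages over both variables
    have h1 := hSE (fun x => Real.tanh x ^ 2) 1 (tanh_cont.pow 2) (fun x => by
      rw [abs_of_nonneg (sq_nonneg _)]
      linarith [tanh_sq_le x, abs_nonneg x]) h u w hu0 hw0.le
    have h2 := hSE (fun x => sech x ^ 4) 1 (sk_cont 4) (fun x => by
      linarith [sk_bd 4 x, abs_nonneg x]) h u w hu0 hw0.le
    rw [huw] at h1 h2
    have ct2 : Continuous fun z => E1 (fun y => Real.tanh (h + √u * z + √w * y) ^ 2) :=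
      cont_E (g := fun x => Real.tanh x ^ 2) (C := 1) (tanh_cont.pow 2) (fun x => by
        rw [abs_of_nonneg (sq_nonneg _)]; exact tanh_sq_le x) h (√u) (√w)
    have ct1 : Continuous fun z => E1 (fun y => Real.tanh (h + √u * z + √w * y)) :=
      cont_E (g := Real.tanh) (C := 1) tanh_cont (fun x => (Real.abs_tanh_lt_one x).le) h (√u) (√w)
    have cs4 : Continuous fun z => E1 (fun y => sech (h + √u * z + √w * y) ^ 4) :=
      cont_E (sk_cont 4) (sk_bd 4) h (√u) (√w)
    have bt2 : ∀ z, |E1 (fun y => Real.tanh (h + √u * z + √w * y) ^ 2)| ≤ 1 := fun z =>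
      E1_bd fun y => by rw [abs_of_nonneg (sq_nonneg _)]; exact tanh_sq_le _
    have bt1 : ∀ z, |(E1 (fun y => Real.tanh (h + √u * z + √w * y))) ^ 2| ≤ 1 := fun z => by
      rw [abs_pow]
      exact pow_le_one₀ (abs_nonneg _) (E1_bd fun y => (Real.abs_tanh_lt_one _).le)
    have bs4 : ∀ z, |w * E1 (fun y => sech (h + √u * z + √w * y) ^ 4)| ≤ w := fun z => by
      rw [abs_mul, abs_of_pos hw0]
      exact mul_le_of_le_one_right hw0.le (E1_bd fun y => sk_bd 4 _)
    have key : ∀ z : ℝ, 0 < w * E1 (fun y => sech (h + √u * z + √w * y) ^ 4) -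
        (E1 (fun y => Real.tanh (h + √u * z + √w * y) ^ 2) -
          (E1 (fun y => Real.tanh (h + √u * z + √w * y))) ^ 2) := by
      intro z
      have h3 := hPO (h + √u * z) (√w) hsw
      rw [Real.sq_sqrt hw0.le] at h3
      linarith
    have c1 : Continuous fun z => w * E1 (fun y => sech (h + √u * z + √w * y) ^ 4) :=
      continuous_const.mul cs4
    have c2 : Continuous fun z => (E1 (fun y => Real.tanh (h + √u * z + √w * y))) ^ 2 := ct1.pow 2
    have c3 : Continuous fun z => E1 (fun y => Real.tanh (h + √u * z + √w * y) ^ 2) -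
        (E1 (fun y => Real.tanh (h + √u * z + √w * y))) ^ 2 := ct2.sub c2
    have b3 : ∀ z, |E1 (fun y => Real.tanh (h + √u * z + √w * y) ^ 2) -
        (E1 (fun y => Real.tanh (h + √u * z + √w * y))) ^ 2| ≤ 2 := fun z => by
      refine (abs_sub _ _).trans ?_
      linarith [bt2 z, bt1 z]
    have h3 : 0 < E1 (fun z => w * E1 (fun y => sech (h + √u * z + √w * y) ^ 4) -
        (E1 (fun y => Real.tanh (h + √u * z + √w * y) ^ 2) -
          (E1 (fun y => Real.tanh (h + √u * z + √w * y))) ^ 2)) := by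
      refine E1_pos (C := w + 2) (c1.sub c3)
        (fun z => ?_) (fun z => (key z).le) ⟨0, key 0⟩
      exact (abs_sub _ _).trans (add_le_add (bs4 z) (b3 z))
    rw [E1_sub (intg c1 bs4) (intg c3 b3), E1_sub (intg ct2 bt2) (intg c2 bt1), E1_mul, h1, h2,
      ← hq1] at h3
    have h4 : w * E1 (fun y => sech (h + √(2 * β ^ 2 * q) * y) ^ 4) ≤ q - t := by
      calc w * E1 (fun y => sech (h + √(2 * β ^ 2 * q) * y) ^ 4) =
            (q - t) * (2 * β ^ 2 * E1 (fun y => sech (h + √(2 * β ^ 2 * q) * y) ^ 4)) := by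
              rw [hw]; ring
        _ ≤ (q - t) * 1 := mul_le_mul_of_nonneg_left hB1 (sub_pos.2 htq).le
        _ = q - t := mul_one _
    linarith
  · intro t hqt ht1
    unfold phi
    rw [if_neg (not_lt.2 hqt.le)]
    have hv : 0 < 2 * β ^ 2 * (t - q) := mul_pos ha (sub_pos.2 hqt)
    have hM := V3_bound hCL hVD hC2 hβ hh hq hq1 hB1
    have h1 := V1_gt hVD (mul_nonneg ha.le hq) hM hv
    have h2 : V 1 (2 * β ^ 2 * q) h 0 = 1 - q := V1_zero hq1
    have h3 : 2 * β ^ 2 * (t - q) * (1 / (2 * β ^ 2)) = t - q := by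
      field_simp
    rw [h2, h3] at h1
    linarith

end Pool.TH198.AT
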