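import Pool.Agent.TH198.AT.Stmts

/-! Piece `G` of the proof of the de Almeida-Thouless line (written by helper429). -/

set_option autoImplicit false

open MeasureTheory ProbabilityTheory Set Filter Topology
open scoped Interval

namespace Pool.TH198.AT

namespace G_

theorem tanh_deriv (x : ℝ) : HasDerivAt Real.tanh ((Real.cosh x ^ 2)⁻¹) x := by
  have hc := (Real.cosh_pos x).ne'
  have h := (Real.hasDerivAt_sinh x).div (Real.hasDerivAt_cosh x) hc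
  have h1 : (Real.cosh x * Real.cosh x - Real.sinh x * Real.sinh x) / Real.cosh x ^ 2 =
      (Real.cosh x ^ 2)⁻¹ := by
    have h2 := Real.cosh_sq_sub_sinh_sq x
    rw [show Real.cosh x * Real.cosh x - Real.sinh x * Real.sinh x = 1 by linarith, one_div]
  rw [h1] at h
  have h3 : Real.tanh = fun y => Real.sinh y / Real.cosh y := by
    funext y
    exact Real.tanh_eq_sinh_div_cosh y
  rw [h3]
  exact h

theorem logcosh_deriv (x : ℝ) :
    HasDerivAt (fun x => Real.log (Real.cosh x)) (Real.tanh x) x := by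
  have h := (Real.hasDerivAt_cosh x).log (Real.cosh_pos x).ne'
  rwa [← Real.tanh_eq_sinh_div_cosh] at h

theorem abs_tanh_le (x : ℝ) : |Real.tanh x| ≤ 1 := by
  rw [Real.tanh_eq_sinh_div_cosh, abs_div, abs_of_pos (Real.cosh_pos x),
    div_le_one (Real.cosh_pos x)]
  apply abs_le_of_sq_le_sq _ (Real.cosh_pos x).le
  have := Real.cosh_sq_sub_sinh_sq x
  linarith

theorem csq_inv (x : ℝ) : |(Real.cosh x ^ 2)⁻¹| ≤ 1 := by
  have h := Real.one_le_cosh x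
  have h1 : 1 ≤ Real.cosh x ^ 2 := one_le_pow₀ h
  rw [abs_of_pos (by positivity)]
  exact inv_le_one_of_one_le₀ h1

section

variable {β q : ℝ} {ζ : ℝ → ℝ}

theorem sub_Icc (hq0 : 0 ≤ q) (hq1 : q ≤ 1) {r : ℝ} (hr : r ∈ Ι q 1) :
    r ∈ Icc (0 : ℝ) 1 ∧ r ∈ Icc q 1 := by
  rw [uIoc_of_le hq1] at hr
  exact ⟨⟨hq0.trans hr.1.le, hr.2⟩, ⟨hr.1.le, hr.2⟩⟩

theorem meas_zeta (hq0 : 0 ≤ q) (hq1 : q ≤ 1) (hζ : IsCdf ζ) :
    AEStronglyMeasurable (fun r => ζ r - 1) (volume.restrict (Ι q 1)) := by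
  have h1 : AEMeasurable ζ (volume.restrict (Icc 0 1)) :=
    aemeasurable_restrict_of_monotoneOn measurableSet_Icc hζ.1
  have h2 : AEMeasurable ζ (volume.restrict (Ι q 1)) :=
    h1.mono_measure (Measure.restrict_mono (fun r hr => (sub_Icc hq0 hq1 hr).1) le_rfl)
  exact (h2.sub_const 1).aestronglyMeasurable

theorem meas_K (hq1 : q ≤ 1) {K : ℝ → ℝ → ℝ}
    (hK : ContinuousOn (fun p : ℝ × ℝ => K p.1 p.2) (Ici 0 ×ˢ univ)) (hβ : 0 < β) (x : ℝ) :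
    AEStronglyMeasurable (fun r => K (2 * β ^ 2 * (r - q)) x) (volume.restrict (Ι q 1)) := by
  apply ContinuousOn.aestronglyMeasurable _ measurableSet_uIoc
  have h1 : ContinuousOn (fun r : ℝ => ((2 * β ^ 2 * (r - q), x) : ℝ × ℝ)) (Ι q 1) := by
    apply Continuous.continuousOn
    fun_prop
  refine hK.comp h1 fun r hr => ⟨?_, mem_univ _⟩
  rw [uIoc_of_le hq1] at hr
  exact mul_nonneg (by positivity) (sub_nonneg.2 hr.1.le)

theorem bd_zeta (hq0 : 0 ≤ q) (hq1 : q ≤ 1) (hζ : IsCdf ζ) {r : ℝ} (hr : r ∈ Ι q 1) :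
    |ζ r - 1| ≤ 1 := by
  have h := hζ.2.1 r (sub_Icc hq0 hq1 hr).1
  rw [abs_le]
  constructor <;> linarith [h.1, h.2]

theorem bd_prod (hq0 : 0 ≤ q) (hq1 : q ≤ 1) (hζ : IsCdf ζ) (hβ : 0 < β) {K : ℝ → ℝ → ℝ} {C : ℝ}
    (hC : ∀ w x : ℝ, 0 ≤ w → |K w x| ≤ C) {r : ℝ} (hr : r ∈ Ι q 1) (x : ℝ) :
    ‖(ζ r - 1) * K (2 * β ^ 2 * (r - q)) x‖ ≤ C := by
  have h1 := bd_zeta hq0 hq1 hζ hr
  have h2 : 0 ≤ 2 * β ^ 2 * (r - q) :=
    mul_nonneg (by positivity) (sub_nonneg.2 (sub_Icc hq0 hq1 hr).2.1)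
  have h3 := hC _ x h2
  rw [Real.norm_eq_abs, abs_mul]
  calc |ζ r - 1| * |K (2 * β ^ 2 * (r - q)) x| ≤ 1 * C :=
        mul_le_mul h1 h3 (abs_nonneg _) zero_le_one
    _ = C := one_mul C

theorem intble (hq0 : 0 ≤ q) (hq1 : q ≤ 1) (hζ : IsCdf ζ) (hβ : 0 < β) {K : ℝ → ℝ → ℝ} {C : ℝ}
    (hK : ContinuousOn (fun p : ℝ × ℝ => K p.1 p.2) (Ici 0 ×ˢ univ))
    (hC : ∀ w x : ℝ, 0 ≤ w → |K w x| ≤ C) (x : ℝ) :
    IntervalIntegrable (fun r => (ζ r - 1) * K (2 * β ^ 2 * (r - q)) x) volume q 1 := by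
  refine (intervalIntegrable_const (c := C)).mono_fun
    ((meas_zeta hq0 hq1 hζ).mul (meas_K hq1 hK hβ x)) ?_
  rw [EventuallyLE, ae_restrict_iff' measurableSet_uIoc]
  refine Eventually.of_forall fun r hr => ?_
  exact (bd_prod hq0 hq1 hζ hβ hC hr x).trans (le_abs_self C)

theorem diff_int (hq0 : 0 ≤ q) (hq1 : q ≤ 1) (hζ : IsCdf ζ) (hβ : 0 < β) {K K' : ℝ → ℝ → ℝ}
    {C : ℝ} (hK : ContinuousOn (fun p : ℝ × ℝ => K p.1 p.2) (Ici 0 ×ˢ univ))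
    (hK' : ContinuousOn (fun p : ℝ × ℝ => K' p.1 p.2) (Ici 0 ×ˢ univ))
    (hd : ∀ w x : ℝ, 0 ≤ w → HasDerivAt (K w) (K' w x) x)
    (hC : ∀ w x : ℝ, 0 ≤ w → |K w x| ≤ C) (hC' : ∀ w x : ℝ, 0 ≤ w → |K' w x| ≤ C) (x : ℝ) :
    HasDerivAt (fun x => ∫ r in q..1, (ζ r - 1) * K (2 * β ^ 2 * (r - q)) x)
      (∫ r in q..1, (ζ r - 1) * K' (2 * β ^ 2 * (r - q)) x) x := by
  refine (intervalIntegral.hasDerivAt_integral_of_dominated_loc_of_deriv_le
    (F := fun x r => (ζ r - 1) * K (2 * β ^ 2 * (r - q)) x)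
    (F' := fun x r => (ζ r - 1) * K' (2 * β ^ 2 * (r - q)) x) (bound := fun _ => C)
    (s := univ) univ_mem ?_ (intble hq0 hq1 hζ hβ hK hC x) ?_ ?_ intervalIntegrable_const ?_).2
  · exact Eventually.of_forall fun y => (meas_zeta hq0 hq1 hζ).mul (meas_K hq1 hK hβ y)
  · exact (meas_zeta hq0 hq1 hζ).mul (meas_K hq1 hK' hβ x)
  · exact Eventually.of_forall fun r hr y _ => bd_prod hq0 hq1 hζ hβ hC' hr y
  · refine Eventually.of_forall fun r hr y _ => ?_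
    have h2 : 0 ≤ 2 * β ^ 2 * (r - q) :=
      mul_nonneg (by positivity) (sub_nonneg.2 (sub_Icc hq0 hq1 hr).2.1)
    exact (hd _ y h2).const_mul _

theorem cont_int (hq0 : 0 ≤ q) (hq1 : q ≤ 1) (hζ : IsCdf ζ) (hβ : 0 < β) {K : ℝ → ℝ → ℝ}
    {C : ℝ} (hK : ContinuousOn (fun p : ℝ × ℝ => K p.1 p.2) (Ici 0 ×ˢ univ))
    (hC : ∀ w x : ℝ, 0 ≤ w → |K w x| ≤ C) :
    Continuous (fun x => ∫ r in q..1, (ζ r - 1) * K (2 * β ^ 2 * (r - q)) x) := by
  refine intervalIntegral.continuous_of_dominated_interval (bound := fun _ => C)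
    (fun y => (meas_zeta hq0 hq1 hζ).mul (meas_K hq1 hK hβ y))
    (fun y => Eventually.of_forall fun r hr => bd_prod hq0 hq1 hζ hβ hC hr y)
    intervalIntegrable_const (Eventually.of_forall fun r hr => ?_)
  have h2 : 0 ≤ 2 * β ^ 2 * (r - q) :=
    mul_nonneg (by positivity) (sub_nonneg.2 (sub_Icc hq0 hq1 hr).2.1)
  apply Continuous.mul continuous_const
  rw [← continuousOn_univ]
  exact hK.comp (f := fun y : ℝ => ((2 * β ^ 2 * (r - q), y) : ℝ × ℝ))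
    (by apply Continuous.continuousOn; fun_prop) (fun y _ => ⟨h2, mem_univ _⟩)

theorem bd_int (hq0 : 0 ≤ q) (hq1 : q ≤ 1) (hζ : IsCdf ζ) (hβ : 0 < β) {K : ℝ → ℝ → ℝ}
    {C : ℝ} (hC0 : 0 ≤ C) (hC : ∀ w x : ℝ, 0 ≤ w → |K w x| ≤ C) (x : ℝ) :
    |∫ r in q..1, (ζ r - 1) * K (2 * β ^ 2 * (r - q)) x| ≤ C := by
  have h := intervalIntegral.norm_integral_le_of_norm_le_const
    (fun r hr => bd_prod hq0 hq1 hζ hβ hC hr x)
  rw [Real.norm_eq_abs] at h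
  refine h.trans ?_
  have h1 : |1 - q| ≤ 1 := by
    rw [abs_le]
    constructor <;> linarith
  calc C * |1 - q| ≤ C * 1 := mul_le_mul_of_nonneg_left h1 hC0
    _ = C := mul_one C

end

end G_

theorem t_G (hKD : St_KD) : St_G := by
  obtain ⟨Kx, Kxx, C, h1, -, h3, h4, h5, h6, -⟩ := hKD
  intro β q ζ hβ hq0 hq1 hζ
  have hC0 : 0 ≤ C := (abs_nonneg _).trans (h6 0 0 le_rfl).1
  refine ⟨fun x => Real.tanh x + β ^ 2 * ∫ r in q..1, (ζ r - 1) * Kx (2 * β ^ 2 * (r - q)) x,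
    fun x => (Real.cosh x ^ 2)⁻¹ + β ^ 2 * ∫ r in q..1, (ζ r - 1) * Kxx (2 * β ^ 2 * (r - q)) x,
    ?_, ?_, ?_, 1 + β ^ 2 * C, ?_⟩
  · intro x
    have ha := (G_.logcosh_deriv x).add_const (β ^ 2 * (1 - q))
    have hb := (G_.diff_int hq0 hq1 hζ hβ h3 h4 (fun w x hw => (h1 w x hw).1)
      (fun w x hw => (h6 w x hw).1) (fun w x hw => (h6 w x hw).2.1) x).const_mul (β ^ 2)
    exact ha.add hb
  · intro x
    have ha := G_.tanh_deriv x
    have hb := (G_.diff_int hq0 hq1 hζ hβ h4 h5 (fun w x hw => (h1 w x hw).2)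
      (fun w x hw => (h6 w x hw).2.1) (fun w x hw => (h6 w x hw).2.2) x).const_mul (β ^ 2)
    exact ha.add hb
  · have ha : Continuous fun x => (Real.cosh x ^ 2)⁻¹ := by
      apply Continuous.inv₀ (Real.continuous_cosh.pow 2)
      intro x
      exact pow_ne_zero 2 (Real.cosh_pos x).ne'
    exact ha.add (continuous_const.mul
      (G_.cont_int hq0 hq1 hζ hβ h5 (fun w x hw => (h6 w x hw).2.2)))
  · intro x
    have hb : 0 ≤ β ^ 2 := sq_nonneg β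
    constructor
    · have ha := G_.bd_int hq0 hq1 hζ hβ hC0 (fun w x hw => (h6 w x hw).2.1) x
      refine (abs_add_le _ _).trans (add_le_add (G_.abs_tanh_le x) ?_)
      rw [abs_mul, abs_of_nonneg hb]
      exact mul_le_mul_of_nonneg_left ha hb
    · have ha := G_.bd_int hq0 hq1 hζ hβ hC0 (fun w x hw => (h6 w x hw).2.2) x
      refine (abs_add_le _ _).trans (add_le_add (G_.csq_inv x) ?_)
      rw [abs_mul, abs_of_nonneg hb]
      exact mul_le_mul_of_nonneg_left ha hb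

end Pool.TH198.AT
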